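import Mathlib

/-!
# Counting divisors and multiples (H9 GS)
-/

set_option autoImplicit false

namespace Pool.Agent.H9.GS

private theorem sq_dvd_sub {m u d : ℕ} (h1 : m ∣ u ^ 2) (h2 : m ∣ (u + d) ^ 2) : m ∣ d ^ 2 := by
  have h3 : m ^ 2 ∣ (u * (u + d)) ^ 2 := by
    rw [mul_pow, sq m]
    exact mul_dvd_mul h1 h2
  have h4 : m ∣ u * (u + d) := (Nat.pow_dvd_pow_iff two_ne_zero).1 h3
  have h5 : m ∣ u * d := by
    have h6 : u * (u + d) = u ^ 2 + u * d := by ring
    rw [h6] at h4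
    exact (Nat.dvd_add_right h1).1 h4
  have h7 : (u + d) ^ 2 = (u ^ 2 + 2 * (u * d)) + d ^ 2 := by ring
  rw [h7] at h2
  exact (Nat.dvd_add_right (Dvd.dvd.add h1 (h5.mul_left 2))).1 h2

theorem card_sq (m : ℕ) :
    ((Finset.Ioo 0 m).filter fun u => m ∣ Nat.gcd u m ^ 2).card ≤ Nat.sqrt m := by
  classical
  have hex : ∃ t, m ≤ t * t := ⟨m, Nat.le_mul_self m⟩
  obtain ⟨t, ht, hmin⟩ : ∃ t, m ≤ t * t ∧ ∀ d, m ≤ d * d → t ≤ d :=
    ⟨Nat.find hex, Nat.find_spec hex, fun d hd => Nat.find_min' hex hd⟩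
  rcases Nat.eq_zero_or_pos m with h0 | h0
  · subst h0
    simp
  have ht0 : 0 < t := by
    rcases Nat.eq_zero_or_pos t with h | h
    · subst h
      omega
    · exact h
  have hs : t - 1 ≤ Nat.sqrt m := by
    rw [Nat.le_sqrt]
    by_contra hcon
    have h1 := hmin (t - 1) (by omega)
    omega
  have hsq : ∀ u, m ∣ Nat.gcd u m ^ 2 → m ∣ u ^ 2 := fun u hu =>
    hu.trans (pow_dvd_pow_of_dvd (Nat.gcd_dvd_left u m) 2)
  have hge : ∀ d, 0 < d → m ∣ d ^ 2 → t ≤ d := by
    intro d hd hm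
    refine hmin d ?_
    rw [← sq]
    exact Nat.le_of_dvd (pow_pos hd 2) hm
  have hcard : ((Finset.Ioo 0 m).filter fun u => m ∣ Nat.gcd u m ^ 2).card ≤ (Finset.Icc 1 (t - 1)).card := by
    refine Finset.card_le_card_of_injOn (fun u => u / t) ?_ ?_
    · intro u hu
      rw [Finset.mem_coe, Finset.mem_filter, Finset.mem_Ioo] at hu
      obtain ⟨⟨h1, h2⟩, h3⟩ := hu
      rw [Finset.mem_coe, Finset.mem_Icc]
      have h4 := hge u h1 (hsq u h3)
      have h5 : u / t < t := Nat.div_lt_of_lt_mul (lt_of_lt_of_le h2 ht)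
      have h6 : 1 ≤ u / t := (Nat.one_le_div_iff ht0).2 h4
      show 1 ≤ u / t ∧ u / t ≤ t - 1
      omega
    · have key : ∀ u v, u ≤ v → m ∣ Nat.gcd u m ^ 2 → m ∣ Nat.gcd v m ^ 2 → u / t = v / t → u = v := by
        intro u v huv hu hv h
        obtain ⟨d, rfl⟩ := Nat.exists_eq_add_of_le huv
        rcases Nat.eq_zero_or_pos d with hd | hd
        · subst hd
          rfl
        have h1 := hge d hd (sq_dvd_sub (hsq u hu) (hsq _ hv))
        have h2 : u / t + 1 ≤ (u + d) / t := by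
          rw [← Nat.add_div_right u ht0]
          exact Nat.div_le_div_right (by omega)
        omega
      intro u hu v hv h
      rw [Finset.mem_coe, Finset.mem_filter, Finset.mem_Ioo] at hu hv
      rcases le_total u v with h1 | h1
      · exact key u v h1 hu.2 hv.2 h
      · exact (key v u h1 hv.2 hu.2 h.symm).symm
  rw [Nat.card_Icc] at hcard
  omega

theorem card_div (m : ℕ) : m.divisors.card ≤ 2 * Nat.sqrt m := by
  classical
  have h1 : m.divisors ⊆ (Finset.Icc 1 (Nat.sqrt m)) ∪ (Finset.Icc 1 (Nat.sqrt m)).image fun d => m / d := by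
    intro d hd
    rw [Nat.mem_divisors] at hd
    obtain ⟨h1, h2⟩ := hd
    have h3 : 0 < d := Nat.pos_of_dvd_of_pos h1 (Nat.pos_of_ne_zero h2)
    have h4 : d * (m / d) = m := Nat.mul_div_cancel' h1
    have h5 : 0 < m / d := by
      rcases Nat.eq_zero_or_pos (m / d) with h | h
      · rw [h, mul_zero] at h4
        exact absurd h4.symm h2
      · exact h
    rw [Finset.mem_union, Finset.mem_image]
    rcases le_total d (Nat.sqrt m) with h6 | h6
    · left
      rw [Finset.mem_Icc]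
      exact ⟨h3, h6⟩
    · by_cases h7 : d ≤ Nat.sqrt m
      · left
        rw [Finset.mem_Icc]
        exact ⟨h3, h7⟩
      · right
        refine ⟨m / d, ?_, ?_⟩
        · rw [Finset.mem_Icc]
          refine ⟨h5, ?_⟩
          by_contra h8
          have h9 := Nat.lt_succ_sqrt m
          have h10 : (Nat.sqrt m + 1) * (Nat.sqrt m + 1) ≤ d * (m / d) := Nat.mul_le_mul (by omega) (by omega)
          rw [h4] at h10
          exact absurd h10 (not_le.2 h9)
        · exact Nat.div_div_self h1 h2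
  refine (Finset.card_le_card h1).trans ((Finset.card_union_le _ _).trans ?_)
  have h2 : ((Finset.Icc 1 (Nat.sqrt m)).image fun d => m / d).card ≤ (Finset.Icc 1 (Nat.sqrt m)).card :=
    Finset.card_image_le
  rw [Nat.card_Icc] at h2 ⊢
  omega

theorem card_pairs (m : ℕ) :
    ((Finset.Ioo 0 m ×ˢ Finset.Ioo 0 m).filter fun p => m / Nat.gcd p.1 m ∣ p.2).card ≤
      m * (m.divisors.card - 2) := by
  classical
  rcases Nat.lt_or_ge m 2 with h0 | h0
  · have h1 : Finset.Ioo 0 m = ∅ := by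
      refine Finset.eq_empty_of_forall_notMem fun x hx => ?_
      rw [Finset.mem_Ioo] at hx
      omega
    rw [h1]
    simp
  have h1 : ((Finset.Ioo 0 m ×ˢ Finset.Ioo 0 m).filter fun p => m / Nat.gcd p.1 m ∣ p.2) ⊆
      ((m.divisors.erase 1).erase m).biUnion fun b => ((Finset.Ioc 0 m).filter fun u => m / b ∣ u) ×ˢ
        ((Finset.Ioc 0 m).filter fun v => b ∣ v) := by
    rintro ⟨u, v⟩ hp
    rw [Finset.mem_filter, Finset.mem_product, Finset.mem_Ioo, Finset.mem_Ioo] at hp
    obtain ⟨⟨⟨h1, h2⟩, h3, h4⟩, h5⟩ := hp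
    change m / Nat.gcd u m ∣ v at h5
    change 0 < v at h3
    change v < m at h4
    change 0 < u at h1
    change u < m at h2
    rw [Finset.mem_biUnion]
    refine ⟨m / Nat.gcd u m, ?_, ?_⟩
    · rw [Finset.mem_erase, Finset.mem_erase, Nat.mem_divisors]
      refine ⟨?_, ?_, Nat.div_dvd_of_dvd (Nat.gcd_dvd_right u m), by omega⟩
      · intro h6
        rw [h6] at h5
        exact absurd (Nat.le_of_dvd h3 h5) (by omega)
      · intro h6
        have h7 : m / Nat.gcd u m * Nat.gcd u m = m := Nat.div_mul_cancel (Nat.gcd_dvd_right u m)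
        rw [h6, one_mul] at h7
        have h8 : Nat.gcd u m ≤ u := Nat.le_of_dvd h1 (Nat.gcd_dvd_left u m)
        omega
    · rw [Finset.mem_product, Finset.mem_filter, Finset.mem_filter, Finset.mem_Ioc, Finset.mem_Ioc,
        Nat.div_div_self (Nat.gcd_dvd_right u m) (by omega)]
      exact ⟨⟨⟨h1, h2.le⟩, Nat.gcd_dvd_left u m⟩, ⟨⟨h3, h4.le⟩, h5⟩⟩
  refine (Finset.card_le_card h1).trans (Finset.card_biUnion_le.trans ?_)
  have h2 : ((m.divisors.erase 1).erase m).card = m.divisors.card - 2 := by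
    have h3 : m ∈ m.divisors.erase 1 := by
      rw [Finset.mem_erase, Nat.mem_divisors]
      exact ⟨by omega, dvd_rfl, by omega⟩
    have h4 : 1 ∈ m.divisors := by
      rw [Nat.mem_divisors]
      exact ⟨one_dvd _, by omega⟩
    rw [Finset.card_erase_of_mem h3, Finset.card_erase_of_mem h4]
    omega
  refine (Finset.sum_le_card_nsmul _ _ m fun b hb => ?_).trans ?_
  · rw [Finset.mem_erase, Finset.mem_erase, Nat.mem_divisors] at hb
    obtain ⟨-, -, hb⟩ := hb
    rw [Finset.card_product, Nat.Ioc_filter_dvd_card_eq_div, Nat.Ioc_filter_dvd_card_eq_div,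
      Nat.div_div_self hb.1 hb.2, Nat.mul_div_cancel' hb.1]
  · rw [smul_eq_mul, h2, mul_comm]

end Pool.Agent.H9.GS
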