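import Mathlib

/-!
# Few binomial pairs (H9 GS)

For `m ≥ 1` at most `2 log₂ m` of the numbers `c ≤ m` are of the form `c = n.choose k`, `m = (n + 1).choose k`, `2 ≤ k ≤ n - 1`.
-/

set_option autoImplicit false

namespace Pool.Agent.H9.GS

private theorem two_pow_central (j : ℕ) : 2 ^ j ≤ (2 * j).choose j := by
  induction j with
  | zero => decide
  | succ n ih =>
    have h1 := Nat.succ_mul_centralBinom_succ n
    have e1 : Nat.centralBinom n = (2 * n).choose n := rfl
    have e2 : Nat.centralBinom (n + 1) = (2 * (n + 1)).choose (n + 1) := rfl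
    rw [e1, e2] at h1
    have h2 : (n + 1) * 2 ^ (n + 1) ≤ (n + 1) * (2 * (n + 1)).choose (n + 1) := by
      calc (n + 1) * 2 ^ (n + 1) = (2 * n + 2) * 2 ^ n := by rw [pow_succ]; ring
        _ ≤ (2 * (2 * n + 1)) * 2 ^ n := Nat.mul_le_mul_right _ (by omega)
        _ ≤ (2 * (2 * n + 1)) * (2 * n).choose n := Nat.mul_le_mul_left _ ih
        _ = (n + 1) * (2 * (n + 1)).choose (n + 1) := by rw [h1]
    exact Nat.le_of_mul_le_mul_left h2 (by omega)

private theorem choose_uniq {j N N' : ℕ} (hj : 1 ≤ j) (hN : j ≤ N) (h : N.choose j = N'.choose j) : N' ≤ N := by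
  by_contra hcon
  have h1 : (N + 1).choose j ≤ N'.choose j := Nat.choose_le_choose j (by omega)
  obtain ⟨i, rfl⟩ := Nat.exists_eq_add_of_le hj
  rw [Nat.add_comm 1 i] at h h1 hN
  rw [Nat.choose_succ_succ] at h1
  have h2 : 0 < N.choose i := Nat.choose_pos (by omega)
  have h3 : N.choose (i.succ) = N'.choose (i + 1) := h
  omega

private theorem value {c m n k : ℕ} (hc : c = n.choose k) (hm : m = (n + 1).choose k) :
    c = m * (n + 1 - k) / (n + 1) := by
  have h1 : n.choose k * (n + 1) = (n + 1).choose k * (n + 1 - k) := Nat.choose_mul_succ_eq n k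
  have h2 : m * (n + 1 - k) = c * (n + 1) := by
    rw [hm, hc, ← h1]
  rw [h2, Nat.mul_div_cancel _ (Nat.succ_pos n)]

theorem bin_count (m : ℕ) (T : Finset ℕ)
    (hT : ∀ c ∈ T, ∃ n k : ℕ, 2 ≤ k ∧ k + 1 ≤ n ∧ c = n.choose k ∧ m = (n + 1).choose k) :
    T.card ≤ 2 * Nat.log 2 m := by
  classical
  have hex : ∀ j : ℕ, ∃ N : ℕ, (∃ N', 2 * j ≤ N' ∧ N'.choose j = m) → 2 * j ≤ N ∧ N.choose j = m := by
    intro j
    by_cases h : ∃ N', 2 * j ≤ N' ∧ N'.choose j = m
    · obtain ⟨N, hN⟩ := h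
      exact ⟨N, fun _ => hN⟩
    · exact ⟨0, fun h' => absurd h' h⟩
  choose F hF using hex
  have hFu : ∀ j N', 1 ≤ j → 2 * j ≤ N' → N'.choose j = m → F j = N' := by
    intro j N' hj h1 h2
    obtain ⟨h3, h4⟩ := hF j ⟨N', h1, h2⟩
    exact le_antisymm (choose_uniq hj (by omega) (h2.trans h4.symm)) (choose_uniq hj (by omega) (h4.trans h2.symm))
  have hlog : ∀ j N', 2 ≤ j → 2 * j ≤ N' → N'.choose j = m → j ∈ Finset.Icc 2 (Nat.log 2 m) := by
    intro j N' hj h1 h2
    have h3 : 2 ^ j ≤ m := by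
      rw [← h2]
      exact (two_pow_central j).trans (Nat.choose_le_choose j h1)
    rw [Finset.mem_Icc]
    refine ⟨hj, Nat.le_log_of_pow_le (by norm_num) h3⟩
  have hsub : T ⊆ (Finset.Icc 2 (Nat.log 2 m)).image (fun j => m * (F j - j) / F j) ∪
      (Finset.Icc 2 (Nat.log 2 m)).image (fun j => m * j / F j) := by
    intro c hc
    obtain ⟨n, k, h1, h2, h3, h4⟩ := hT c hc
    have hv := value h3 h4
    rw [Finset.mem_union, Finset.mem_image, Finset.mem_image]
    rcases le_total (2 * k) (n + 1) with h5 | h5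
    · left
      refine ⟨k, hlog k (n + 1) h1 h5 h4.symm, ?_⟩
      rw [hFu k (n + 1) (by omega) h5 h4.symm]
      exact hv.symm
    · right
      have h6 : (n + 1).choose (n + 1 - k) = m := by
        rw [Nat.choose_symm (by omega)]
        exact h4.symm
      refine ⟨n + 1 - k, hlog _ (n + 1) (by omega) (by omega) h6, ?_⟩
      rw [hFu _ (n + 1) (by omega) (by omega) h6]
      exact hv.symm
  refine (Finset.card_le_card hsub).trans ((Finset.card_union_le _ _).trans ?_)
  have h1 : ((Finset.Icc 2 (Nat.log 2 m)).image (fun j => m * (F j - j) / F j)).card ≤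
      (Finset.Icc 2 (Nat.log 2 m)).card := Finset.card_image_le
  have h2 : ((Finset.Icc 2 (Nat.log 2 m)).image (fun j => m * j / F j)).card ≤
      (Finset.Icc 2 (Nat.log 2 m)).card := Finset.card_image_le
  rw [Nat.card_Icc] at h1 h2
  omega

end Pool.Agent.H9.GS
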