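import Mathlib

/-!
# Counting functions with prescribed values (H9 GS)
-/

set_option autoImplicit false

namespace Pool.Agent.H9.GS

variable {ι α : Type} [Fintype ι] [DecidableEq ι] [Fintype α] [DecidableEq α]

theorem cnt_one (i : ι) (S : Finset α) :
    (Finset.univ.filter fun f : ι → α => f i ∈ S).card * Fintype.card α = S.card * Fintype.card α ^ Fintype.card ι := by
  have h1 : (Finset.univ.filter fun f : ι → α => f i ∈ S) =
      Fintype.piFinset fun k => if k = i then S else Finset.univ := by
    ext f
    rw [Finset.mem_filter, Fintype.mem_piFinset]
    constructor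
    · rintro ⟨-, h⟩ k
      by_cases hk : k = i
      · rw [if_pos hk, hk]
        exact h
      · rw [if_neg hk]
        exact Finset.mem_univ _
    · intro h
      refine ⟨Finset.mem_univ _, ?_⟩
      have h2 := h i
      rwa [if_pos rfl] at h2
  rw [h1, Fintype.card_piFinset]
  have h2 : Fintype.card α = ∏ k : ι, if k = i then Fintype.card α else 1 := by
    rw [Finset.prod_ite_eq' Finset.univ i, if_pos (Finset.mem_univ i)]
  have h3 : S.card = ∏ k : ι, if k = i then S.card else 1 := by
    rw [Finset.prod_ite_eq' Finset.univ i, if_pos (Finset.mem_univ i)]
  have h4 : Fintype.card α ^ Fintype.card ι = ∏ _k : ι, Fintype.card α := by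
    rw [Finset.prod_const, Finset.card_univ]
  calc (∏ k : ι, (if k = i then S else Finset.univ).card) * Fintype.card α
      = (∏ k : ι, (if k = i then S else Finset.univ).card) * ∏ k : ι, (if k = i then Fintype.card α else 1) := by
        rw [← h2]
    _ = ∏ k : ι, ((if k = i then S else Finset.univ).card * (if k = i then Fintype.card α else 1)) := by
        rw [Finset.prod_mul_distrib]
    _ = ∏ k : ι, ((if k = i then S.card else 1) * Fintype.card α) := by
        refine Finset.prod_congr rfl fun k _ => ?_
        by_cases hk : k = i
        · simp only [if_pos hk]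
        · simp only [if_neg hk, Finset.card_univ, mul_one, one_mul]
    _ = S.card * Fintype.card α ^ Fintype.card ι := by
        rw [Finset.prod_mul_distrib, ← h3, h4]

theorem cnt_two {i j : ι} (hij : i ≠ j) (P : Finset (α × α)) :
    (Finset.univ.filter fun f : ι → α => (f i, f j) ∈ P).card * Fintype.card α ^ 2 ≤
      P.card * Fintype.card α ^ Fintype.card ι := by
  have h1 : (Finset.univ.filter fun f : ι → α => (f i, f j) ∈ P) ⊆
      P.biUnion fun p => Fintype.piFinset fun k => if k = i then {p.1} else if k = j then {p.2} else Finset.univ := by
    intro f hf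
    rw [Finset.mem_filter] at hf
    rw [Finset.mem_biUnion]
    refine ⟨(f i, f j), hf.2, ?_⟩
    rw [Fintype.mem_piFinset]
    intro k
    by_cases hk : k = i
    · rw [if_pos hk, hk]
      exact Finset.mem_singleton_self _
    · rw [if_neg hk]
      by_cases hk' : k = j
      · rw [if_pos hk', hk']
        exact Finset.mem_singleton_self _
      · rw [if_neg hk']
        exact Finset.mem_univ _
  have h2 : Fintype.card α = ∏ k : ι, if k = i then Fintype.card α else 1 := by
    rw [Finset.prod_ite_eq' Finset.univ i, if_pos (Finset.mem_univ i)]
  have h3 : Fintype.card α = ∏ k : ι, if k = j then Fintype.card α else 1 := by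
    rw [Finset.prod_ite_eq' Finset.univ j, if_pos (Finset.mem_univ j)]
  have h4 : Fintype.card α ^ Fintype.card ι = ∏ _k : ι, Fintype.card α := by
    rw [Finset.prod_const, Finset.card_univ]
  have h5 : ∀ p : α × α,
      (Fintype.piFinset fun k => if k = i then {p.1} else if k = j then {p.2} else Finset.univ).card *
        Fintype.card α ^ 2 = Fintype.card α ^ Fintype.card ι := by
    intro p
    rw [Fintype.card_piFinset, h4]
    calc (∏ k : ι, (if k = i then {p.1} else if k = j then {p.2} else Finset.univ).card) * Fintype.card α ^ 2
        = (∏ k : ι, (if k = i then {p.1} else if k = j then {p.2} else (Finset.univ : Finset α)).card) *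
          ((∏ k : ι, if k = i then Fintype.card α else 1) * ∏ k : ι, if k = j then Fintype.card α else 1) := by
          rw [← h2, ← h3, sq]
      _ = ∏ k : ι, ((if k = i then {p.1} else if k = j then {p.2} else (Finset.univ : Finset α)).card *
          ((if k = i then Fintype.card α else 1) * if k = j then Fintype.card α else 1)) := by
          rw [Finset.prod_mul_distrib, Finset.prod_mul_distrib]
      _ = ∏ _k : ι, Fintype.card α := by
          refine Finset.prod_congr rfl fun k _ => ?_
          by_cases hk : k = i
          · have hk' : k ≠ j := fun h => hij (hk.symm.trans h)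
            simp only [if_pos hk, if_neg hk', Finset.card_singleton, one_mul, mul_one]
          · by_cases hk' : k = j
            · simp only [if_neg hk, if_pos hk', Finset.card_singleton, one_mul]
            · simp only [if_neg hk, if_neg hk', Finset.card_univ, mul_one]
  calc (Finset.univ.filter fun f : ι → α => (f i, f j) ∈ P).card * Fintype.card α ^ 2
      ≤ (∑ p ∈ P, (Fintype.piFinset fun k => if k = i then {p.1} else if k = j then {p.2} else
          (Finset.univ : Finset α)).card) * Fintype.card α ^ 2 :=
        Nat.mul_le_mul_right _ ((Finset.card_le_card h1).trans Finset.card_biUnion_le)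
    _ = ∑ _p ∈ P, Fintype.card α ^ Fintype.card ι := by
        rw [Finset.sum_mul]
        exact Finset.sum_congr rfl fun p _ => h5 p
    _ = P.card * Fintype.card α ^ Fintype.card ι := by
        rw [Finset.sum_const, smul_eq_mul]

end Pool.Agent.H9.GS
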