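import Pool.Agent.H9.GS.Pair
import Pool.Agent.H9.GS.ArA
import Pool.Agent.H9.GS.Bin
import Pool.Agent.H9.GS.Fun
import Pool.Agent.H68.U2.Main

/-!
# Almost all signatures, for every multiplicity (H9 GS)
-/

set_option autoImplicit false
set_option linter.unusedSectionVars false

open NumberField Module MvPolynomial

namespace Pool.Agent.H9.GS

open Pool.Agent.H68.HT Pool.Agent.H9.US Pool.Agent.H68.U2
open Pool.Agent.H29.TS (BinPair OkV)

/-- `c` is coprime to `m`, or `2 c ≠ m`, `(c, m)` is not a binomial pair and `m` does not divide `gcd (c, m) ^ 2`. -/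
def Adm (c m : ℕ) : Prop :=
  Nat.Coprime c m ∨ (2 * c ≠ m ∧ ¬ BinPair c m ∧ ¬ m ∣ Nat.gcd c m ^ 2)

open Classical in
/-- The numbers strictly between `0` and `m` which are not admissible. -/
noncomputable def Inadm (m : ℕ) : Finset ℕ := (Finset.Ioo 0 m).filter fun c => ¬ Adm c m

theorem inadm_card (m : ℕ) : (Inadm m).card ≤ 1 + Nat.sqrt m + 2 * Nat.log 2 m := by
  classical
  obtain ⟨T, hT⟩ : ∃ T, T = (Finset.Ioo 0 m).filter fun c => BinPair c m := ⟨_, rfl⟩
  have h1 : Inadm m ⊆ ((Finset.Ioo 0 m).filter fun c => 2 * c = m) ∪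
      ((Finset.Ioo 0 m).filter fun u => m ∣ Nat.gcd u m ^ 2) ∪ T := by
    intro c hc
    unfold Inadm at hc
    rw [Finset.mem_filter] at hc
    obtain ⟨h1, h2⟩ := hc
    unfold Adm at h2
    rw [not_or] at h2
    rw [hT, Finset.mem_union, Finset.mem_union, Finset.mem_filter, Finset.mem_filter, Finset.mem_filter]
    by_cases h3 : 2 * c = m
    · exact Or.inl (Or.inl ⟨h1, h3⟩)
    · by_cases h4 : m ∣ Nat.gcd c m ^ 2
      · exact Or.inl (Or.inr ⟨h1, h4⟩)
      · by_cases h5 : BinPair c m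
        · exact Or.inr ⟨h1, h5⟩
        · exact absurd ⟨h3, h5, h4⟩ h2.2
  have h2 : ((Finset.Ioo 0 m).filter fun c => 2 * c = m).card ≤ 1 := by
    rw [Finset.card_le_one]
    intro a ha b hb
    rw [Finset.mem_filter] at ha hb
    omega
  have h3 := card_sq m
  have h4 : T.card ≤ 2 * Nat.log 2 m := by
    refine bin_count m T fun c hc => ?_
    rw [hT, Finset.mem_filter] at hc
    exact hc.2
  have h5 := (Finset.card_le_card h1).trans ((Finset.card_union_le _ _).trans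
    (Nat.add_le_add_right (Finset.card_union_le _ _) _))
  omega

variable {K : Type} [Field K] [NumberField K] [IsCMField K] {g : ℕ} (R : Reps K g)

theorem indef_of_eval {m : ℕ} {r : (K →+* ℂ) → ℕ} (hr : r ∈ Sig K m) (τ : Fin g → (ℂ ≃+* ℂ))
    (h : eval (vec R m r) (pol R m τ) ≠ 0) (x : K →+* ℂ) : Pool.Agent.H64.CO.Indef m r x := by
  unfold pol at h
  rw [map_mul, map_prod] at h
  have h2 := right_ne_zero_of_mul h
  rw [Finset.prod_ne_zero_iff] at h2
  have h3 : ∀ i, Pool.Agent.H64.CO.Indef m r (R.e i) := by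
    intro i
    have h4 := h2 i (Finset.mem_univ i)
    rw [map_mul, map_sub, map_sub, eval_X, eval_C, eval_C] at h4
    have h5 := left_ne_zero_of_mul h4
    have h6 := right_ne_zero_of_mul h4
    have h7 := hr (R.e i)
    unfold vec at h5 h6
    constructor
    · by_contra h8
      apply h6
      have h9 : r (R.e i) = 0 := by omega
      rw [h9]
      push_cast
      ring
    · by_contra h8
      apply h5
      have h9 : r (R.e i) = m := by omega
      rw [h9]
      push_cast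
      ring
  rcases R.surj x with ⟨i, rfl⟩ | ⟨i, rfl⟩
  · exact h3 i
  · have h4 := hr (R.e i)
    have h5 := h3 i
    change r (R.e i) + r (cb (R.e i)) = m at h4
    unfold Pool.Agent.H64.CO.Indef at h5 ⊢
    omega

theorem good_of_eval2 {m : ℕ} (hm : 1 ≤ m) {r : (K →+* ℂ) → ℕ} (hr : r ∈ Sig K m) (τ : Fin g → (ℂ ≃+* ℂ))
    (h : eval (vec R m r) (pol R m τ) ≠ 0) (hG : ∃ x, GVal m r x) : Good K m r := by
  have hI := indef_of_eval R hr τ h
  have hodd : ∀ x, (2 * (r (cb x) : ℤ) - m : ℤ) = - (2 * (r x : ℤ) - m) := by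
    intro x
    have h3 := hr x
    change r x + r (cb x) = m at h3
    omega
  have h1 : eval (vec R m r) (mat R τ).det ≠ 0 := by
    unfold pol at h
    rw [map_mul] at h
    exact left_ne_zero_of_mul h
  have hS : Pool.Agent.H64.CO.Spans fun x => 2 * (r x : ℤ) - m := spans_of_det R τ _ hodd h1
  exact good_of2 hm hr hG (Or.inr (Pool.Agent.H64.CO.unl_of_spans m r hr hI hS)) hS

/-- The coordinates of a signature. -/
private def co (m : ℕ) (r : (K →+* ℂ) → ℕ) : Fin g → Fin (m + 1) := fun i => ⟨min (r (R.e i)) m, by omega⟩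

private theorem co_val {m : ℕ} {r : (K →+* ℂ) → ℕ} (hr : r ∈ Sig K m) (i : Fin g) :
    ((co R m r i : Fin (m + 1)) : ℕ) = r (R.e i) := by
  have h1 := hr (R.e i)
  show min (r (R.e i)) m = r (R.e i)
  omega

private theorem co_inj {m : ℕ} : Set.InjOn (co R m) (Sig K m) := by
  intro r hr r' hr' h
  refine vec_inj R m hr hr' ?_
  funext i
  have h1 := congrArg Fin.val (congrFun h i)
  rw [co_val R hr, co_val R hr'] at h1
  unfold vec
  rw [h1]

/-- what goes wrong at a bad signature -/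
private theorem bad_cases {m : ℕ} (hm : 1 ≤ m) {r : (K →+* ℂ) → ℕ} (hr : r ∈ Sig K m) (τ : Fin g → (ℂ ≃+* ℂ))
    (h : eval (vec R m r) (pol R m τ) ≠ 0) (hb : ¬ Good K m r) (i0 : Fin g) :
    r (R.e i0) ∈ Inadm m ∨ ∃ j, i0 ≠ j ∧ 0 < r (R.e i0) ∧ r (R.e i0) < m ∧ 0 < r (R.e j) ∧ r (R.e j) < m ∧
      m / Nat.gcd (r (R.e i0)) m ∣ r (R.e j) := by
  classical
  have hI := indef_of_eval R hr τ h
  have hG : ¬ GVal m r (R.e i0) := fun hx => hb (good_of_eval2 R hm hr τ h ⟨_, hx⟩)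
  have h0 := hI (R.e i0)
  unfold Pool.Agent.H64.CO.Indef at h0
  by_cases hA : Adm (r (R.e i0)) m
  · right
    unfold GVal at hG
    rw [not_or] at hG
    rcases hA with hA | ⟨h1, h2, h3⟩
    · exact absurd hA hG.1
    · have h4 : ¬ ∀ y, 0 < r y → r y < m → ¬ m / Nat.gcd (r (R.e i0)) m ∣ r y :=
        fun h5 => hG.2 ⟨⟨h0.1, h0.2, h1, h2⟩, h5⟩
      push Not at h4
      obtain ⟨y, hy1, hy2, hy3⟩ := h4
      have hdm : m / Nat.gcd (r (R.e i0)) m ∣ m := Nat.div_dvd_of_dvd (Nat.gcd_dvd_right _ m)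
      obtain ⟨j, hj⟩ : ∃ j, m / Nat.gcd (r (R.e i0)) m ∣ r (R.e j) := by
        rcases R.surj y with ⟨j, rfl⟩ | ⟨j, rfl⟩
        · exact ⟨j, hy3⟩
        · refine ⟨j, ?_⟩
          have h5 := hr (R.e j)
          change r (R.e j) + r (cb (R.e j)) = m at h5
          have h6 := Nat.dvd_sub hdm hy3
          have h7 : m - r (cb (R.e j)) = r (R.e j) := by omega
          rwa [h7] at h6
      have hj0 := hI (R.e j)
      unfold Pool.Agent.H64.CO.Indef at hj0
      refine ⟨j, ?_, h0.1, h0.2, hj0.1, hj0.2, hj⟩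
      rintro rfl
      exact h3 ((div_dvd_iff (by omega)).1 hj)
  · left
    unfold Inadm
    rw [Finset.mem_filter, Finset.mem_Ioo]
    exact ⟨⟨h0.1, h0.2⟩, hA⟩

/-- The count. -/
theorem count2 (K : Type) [Field K] [NumberField K] [IsCMField K] (g m : ℕ) (hK : finrank ℚ K = 2 * g) (hm : 1 ≤ m) :
    Nat.card {r : (K →+* ℂ) → ℕ | r ∈ Sig K m ∧ ¬ Good K m r} * (m + 1) ≤
      (3 * g + (Inadm m).card + (g - 1) * (m.divisors.card - 2)) * (m + 1) ^ g := by
  classical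
  obtain ⟨R⟩ := exists_reps (K := K) g hK
  have hg : 1 ≤ g := by
    have : 0 < finrank ℚ K := finrank_pos
    omega
  obtain ⟨i0, -⟩ : ∃ i0 : Fin g, i0 = ⟨0, hg⟩ := ⟨_, rfl⟩
  obtain ⟨τ, hτ⟩ := exists_tau R i0
  have hne := pol_ne R m i0 τ hτ
  obtain ⟨T, hT⟩ : ∃ T : Set ((K →+* ℂ) → ℕ), T = {r | r ∈ Sig K m ∧ ¬ Good K m r} := ⟨_, rfl⟩
  obtain ⟨Z, hZ⟩ : ∃ Z : Set ((K →+* ℂ) → ℕ), Z = {r | r ∈ Sig K m ∧ eval (vec R m r) (pol R m τ) = 0} := ⟨_, rfl⟩
  have hZc : Nat.card Z * (m + 1) ≤ 3 * g * (m + 1) ^ g := count R m τ hne Z fun r hr => by rw [hZ] at hr; exact hr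
  obtain ⟨S0, hS0⟩ : ∃ S0 : Finset (Fin (m + 1)), S0 = Finset.univ.filter fun u : Fin (m + 1) => (u : ℕ) ∈ Inadm m := ⟨_, rfl⟩
  obtain ⟨P0, hP0⟩ : ∃ P0 : Finset (Fin (m + 1) × Fin (m + 1)), P0 = Finset.univ.filter fun p : Fin (m + 1) × Fin (m + 1) =>
      ((p.1 : ℕ), (p.2 : ℕ)) ∈ (Finset.Ioo 0 m ×ˢ Finset.Ioo 0 m).filter fun p => m / Nat.gcd p.1 m ∣ p.2 := ⟨_, rfl⟩
  have hS0c : S0.card ≤ (Inadm m).card := by
    refine Finset.card_le_card_of_injOn (fun u => (u : ℕ)) ?_ fun a _ b _ hab => Fin.ext hab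
    intro u hu
    rw [hS0, Finset.mem_coe, Finset.mem_filter] at hu
    exact hu.2
  have hP0c : P0.card ≤ m * (m.divisors.card - 2) := by
    refine le_trans (Finset.card_le_card_of_injOn (fun p => ((p.1 : ℕ), (p.2 : ℕ))) ?_ ?_) (card_pairs m)
    · intro p hp
      rw [hP0, Finset.mem_coe, Finset.mem_filter] at hp
      exact hp.2
    · rintro ⟨a, b⟩ _ ⟨a', b'⟩ _ hab
      have h1 : (a : ℕ) = a' := congrArg Prod.fst hab
      have h2 : (b : ℕ) = b' := congrArg Prod.snd hab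
      rw [Fin.ext h1, Fin.ext h2]
  obtain ⟨A, hA⟩ : ∃ A : Finset (Fin g → Fin (m + 1)), A = Finset.univ.filter fun f => f i0 ∈ S0 := ⟨_, rfl⟩
  obtain ⟨P, hP⟩ : ∃ P : Fin g → Finset (Fin g → Fin (m + 1)),
      P = fun j => Finset.univ.filter fun f => (f i0, f j) ∈ P0 := ⟨_, rfl⟩
  have hAc : A.card * (m + 1) ≤ (Inadm m).card * (m + 1) ^ g := by
    have h1 := cnt_one (α := Fin (m + 1)) i0 S0
    rw [Fintype.card_fin, Fintype.card_fin, ← hA] at h1
    rw [h1]
    exact Nat.mul_le_mul_right _ hS0c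
  have hPc : ∀ j, i0 ≠ j → (P j).card * (m + 1) ≤ (m.divisors.card - 2) * (m + 1) ^ g := by
    intro j hj
    have h1 := cnt_two (α := Fin (m + 1)) hj P0
    rw [Fintype.card_fin, Fintype.card_fin] at h1
    have h2 : P j = Finset.univ.filter fun f => (f i0, f j) ∈ P0 := by rw [hP]
    rw [← h2] at h1
    have h3 : (P j).card * (m + 1) * (m + 1) ≤ (m.divisors.card - 2) * (m + 1) ^ g * (m + 1) := by
      calc (P j).card * (m + 1) * (m + 1) = (P j).card * (m + 1) ^ 2 := by ring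
        _ ≤ P0.card * (m + 1) ^ g := h1
        _ ≤ (m * (m.divisors.card - 2)) * (m + 1) ^ g := Nat.mul_le_mul_right _ hP0c
        _ ≤ ((m + 1) * (m.divisors.card - 2)) * (m + 1) ^ g :=
            Nat.mul_le_mul_right _ (Nat.mul_le_mul_right _ (Nat.le_succ m))
        _ = (m.divisors.card - 2) * (m + 1) ^ g * (m + 1) := by ring
    exact Nat.le_of_mul_le_mul_right h3 (Nat.succ_pos m)
  have hsub : co R m '' T ⊆ co R m '' Z ∪ ((A ∪ (Finset.univ.erase i0).biUnion P : Finset _) : Set _) := by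
    rintro _ ⟨r, hr, rfl⟩
    rw [hT] at hr
    obtain ⟨hr1, hr2⟩ := hr
    by_cases h0 : eval (vec R m r) (pol R m τ) = 0
    · left
      exact ⟨r, by rw [hZ]; exact ⟨hr1, h0⟩, rfl⟩
    · right
      rw [Finset.mem_coe, Finset.mem_union, Finset.mem_biUnion]
      rcases bad_cases R hm hr1 τ h0 hr2 i0 with h1 | ⟨j, h1, h2, h3, h4, h5, h6⟩
      · left
        rw [hA, Finset.mem_filter, hS0, Finset.mem_filter, co_val R hr1]
        exact ⟨Finset.mem_univ _, Finset.mem_univ _, h1⟩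
      · right
        refine ⟨j, Finset.mem_erase.2 ⟨h1.symm, Finset.mem_univ _⟩, ?_⟩
        rw [hP, Finset.mem_filter, hP0, Finset.mem_filter, co_val R hr1, co_val R hr1, Finset.mem_filter,
          Finset.mem_product, Finset.mem_Ioo, Finset.mem_Ioo]
        exact ⟨Finset.mem_univ _, Finset.mem_univ _, ⟨⟨h2, h3⟩, h4, h5⟩, h6⟩
  have hTs : T ⊆ Sig K m := by rw [hT]; exact fun r hr => hr.1
  have hZs : Z ⊆ Sig K m := by rw [hZ]; exact fun r hr => hr.1
  have h1 : T.ncard ≤ Z.ncard + (A.card + ∑ j ∈ Finset.univ.erase i0, (P j).card) := by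
    rw [← Set.InjOn.ncard_image ((co_inj R).mono hTs), ← Set.InjOn.ncard_image ((co_inj R).mono hZs)]
    refine (Set.ncard_le_ncard hsub (Set.toFinite _)).trans ((Set.ncard_union_le _ _).trans ?_)
    rw [Set.ncard_coe_finset]
    exact Nat.add_le_add_left ((Finset.card_union_le _ _).trans (Nat.add_le_add_left Finset.card_biUnion_le _)) _
  have h2 : (∑ j ∈ Finset.univ.erase i0, (P j).card) * (m + 1) ≤ (g - 1) * (m.divisors.card - 2) * (m + 1) ^ g := by
    rw [Finset.sum_mul]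
    refine (Finset.sum_le_card_nsmul _ _ ((m.divisors.card - 2) * (m + 1) ^ g) fun j hj => ?_).trans ?_
    · exact hPc j (Finset.ne_of_mem_erase hj).symm
    · rw [Finset.card_erase_of_mem (Finset.mem_univ _), Finset.card_univ, Fintype.card_fin, smul_eq_mul, mul_assoc]
  have h3 : Nat.card {r : (K →+* ℂ) → ℕ | r ∈ Sig K m ∧ ¬ Good K m r} = T.ncard := by rw [hT]; rfl
  have h4 : Nat.card Z = Z.ncard := rfl
  rw [h3]
  rw [h4] at hZc
  calc T.ncard * (m + 1) ≤ (Z.ncard + (A.card + ∑ j ∈ Finset.univ.erase i0, (P j).card)) * (m + 1) :=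
        Nat.mul_le_mul_right _ h1
    _ = Z.ncard * (m + 1) + (A.card * (m + 1) + (∑ j ∈ Finset.univ.erase i0, (P j).card) * (m + 1)) := by ring
    _ ≤ 3 * g * (m + 1) ^ g + ((Inadm m).card * (m + 1) ^ g + (g - 1) * (m.divisors.card - 2) * (m + 1) ^ g) :=
        Nat.add_le_add hZc (Nat.add_le_add hAc h2)
    _ = (3 * g + (Inadm m).card + (g - 1) * (m.divisors.card - 2)) * (m + 1) ^ g := by ring

end Pool.Agent.H9.GS
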