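import Pool.Agent.H9.GS.Pair
import Pool.Agent.H9.US.StmtB

/-!
# EverySignature for all admissible pairs `(c, m)` (H9 GS)
-/

set_option autoImplicit false

open NumberField Module

namespace Pool.Agent.H9.GS

open Pool.Agent.H38.CM Pool.Agent.H52.MF Pool.Agent.H52.AD Pool.Agent.H42.OD Pool.Agent.H9.EC
open Pool.Agent.H9.US

variable {K : Type} [Field K] [NumberField K] [IsCMField K]

theorem good_of_not_fail2 {m c : ℕ} (hc : c ≤ m) (hcm : OkPair c m) (h2 : 2 * c ≠ m)
    {r : (K →+* ℂ) → ℕ} (hr : r ∈ Sigs K m c)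
    (hΦ : {x | r x = c} ∉ FailP (cjp K) (autGrp K) (fun _ => True)) : Good K m r := by
  obtain ⟨hv, hr⟩ := hr
  have hm : 1 ≤ m := by
    by_contra h0
    have h3 : m = 0 := by omega
    subst h3
    have h4 : c = 0 := by omega
    subst h4
    exact h2 rfl
  have hv' : ∀ x, r x = c ∨ r x + c = m := fun x => by
    rcases hv x with h | h
    · exact Or.inl h
    · right
      omega
  have hS := spans_sig h2 hr hv' hΦ
  have hne : Nonempty (K →+* ℂ) := inferInstance
  obtain ⟨x0⟩ := hne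
  refine good_of2 hm hr ⟨x0, gval_of_pair hc h2 hcm hv x0⟩ ?_ hS
  by_cases h1 : m = 1
  · exact Or.inl h1
  · right
    have hc01 : c ≠ 0 ∧ c ≠ m := by
      rcases hcm with hcm | ⟨h3, h4, -, -⟩
      · constructor
        · intro h0
          rw [h0, Nat.coprime_zero_left] at hcm
          exact h1 hcm
        · intro h0
          rw [h0, Nat.coprime_self] at hcm
          exact h1 hcm
      · omega
    refine Pool.Agent.H64.CO.unl_of_spans m r hr (fun x => ?_) hS
    unfold Pool.Agent.H64.CO.Indef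
    rcases hv x with h | h <;> omega

theorem card_bad2 {m c : ℕ} (hc : c ≤ m) (hcm : OkPair c m) (h2 : 2 * c ≠ m) :
    Nat.card {r // r ∈ Sigs K m c ∧ ¬ Good K m r} ≤ NumDeg K := by
  classical
  unfold NumDeg
  refine Nat.card_le_card_of_injective (fun r => ⟨{x | r.1 x = c}, ?_⟩) ?_
  · by_contra hcon
    exact r.2.2 (good_of_not_fail2 hc hcm h2 r.2.1 hcon)
  · intro r r' h
    have h' := congrArg Subtype.val h
    exact Subtype.ext (sig_inj h2 r.2.1 r'.2.1 h')

theorem u_final2 : ∃ C : ℝ, ∀ ε : ℝ, 0 < ε → ∃ D : ℕ,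
    ∀ (K : Type) [Field K] [NumberField K] [IsCMField K] (m c g N a b k : ℕ),
      c ≤ m → OkPair c m → 2 * c ≠ m →
      finrank ℚ K = 2 * g → D ≤ g → N = ClosDeg K → a = NumCM K {2} → b = NumCM K {4, 6} →
      k = NumNonab K →
      NumSignatures K m c = 2 ^ g ∧
      ((NumBadSignatures K m c : ℝ) ≤ 2 ^ g * ((if 4 ≤ N then (g : ℝ) ^ (-(1 / 50) : ℝ) else ε) +
        (if 8 ≤ N then 0 else C * (a / Real.sqrt g + b / g + (min b k : ℕ) * Real.log g / g)))) ∧
      (Odd g → (NumBadSignatures K m c : ℝ) ≤ 2 ^ g * (ε + C * b / g)) ∧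
      (Odd g → ¬ 3 ∣ g → (NumBadSignatures K m c : ℝ) ≤ 2 ^ g * ε) := by
  obtain ⟨C, hC⟩ := us_count
  refine ⟨C, fun ε hε => ?_⟩
  obtain ⟨D, hD⟩ := hC ε hε
  refine ⟨D, ?_⟩
  intro K _ _ _ m c g N a b k hc hcm h2 hK hg hN ha hb hk
  obtain ⟨-, h3, h4, h5⟩ := hD K g N a b k hK hg hN ha hb hk
  have h6 : (NumBadSignatures K m c : ℝ) ≤ NumDeg K := by
    have h7 := numBad_le (K := K) hK hc h2
    have h8 : NumBadSig K m c ≤ NumDeg K := card_bad2 hc hcm h2
    exact_mod_cast h7.trans h8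
  exact ⟨card_sigs hK hc h2, h6.trans h3, fun ho => h6.trans (h4 ho), fun ho h3' => h6.trans (h5 ho h3')⟩

end Pool.Agent.H9.GS
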