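import Pool.Agent.H9.GS.Stmt
import Pool.Agent.H9.GS.Sig
import Pool.Agent.H9.GS.Cnt

/-!
# EverySignature for all admissible pairs and all multiplicities: final form (H9 GS)
-/

set_option autoImplicit false

open NumberField Module

namespace Pool.Agent.H9.GS

open Pool.Agent.H42.OD Pool.Agent.H9.EC Pool.Agent.H9.US
open Pool.Agent.H29.TS (BinPair)

theorem adm_iff {c m : ℕ} : IsAdmissible c m ↔ Adm c m := by
  unfold IsAdmissible Adm BinPair
  constructor
  · rintro (h | ⟨h1, h2, h3⟩)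
    · exact Or.inl h
    · refine Or.inr ⟨h1, ?_, h2⟩
      rintro ⟨n, k, h4, h5, h6, h7⟩
      exact h3 n k h4 (by omega) ⟨h6, h7⟩
  · rintro (h | ⟨h1, h2, h3⟩)
    · exact Or.inl h
    · refine Or.inr ⟨h1, h3, fun n k h4 h5 h6 => h2 ⟨n, k, h4, by omega, h6.1, h6.2⟩⟩

theorem okPair_of {c m : ℕ} (hc : c ≤ m) (h : IsAdmissible c m) : OkPair c m := by
  rcases h with h | ⟨h1, h2, h3⟩
  · exact Or.inl h
  · refine Or.inr ⟨?_, ?_, h2, ?_⟩
    · rcases Nat.eq_zero_or_pos c with h0 | h0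
      · subst h0
        exfalso
        apply h2
        rw [Nat.gcd_zero_left, sq]
        exact dvd_mul_right _ _
      · exact h0
    · rcases hc.lt_or_eq with h0 | h0
      · exact h0
      · subst h0
        exfalso
        apply h2
        rw [Nat.gcd_self, sq]
        exact dvd_mul_right _ _
    · rintro ⟨n, k, h4, h5, h6, h7⟩
      exact h3 n k h4 (by omega) ⟨h6, h7⟩

theorem numInadmissible_eq (m : ℕ) : NumInadmissible m = (Inadm m).card := by
  classical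
  have h1 : {c : ℕ | 0 < c ∧ c < m ∧ ¬ IsAdmissible c m} = (Inadm m : Set ℕ) := by
    ext c
    unfold Inadm
    rw [Finset.mem_coe, Finset.mem_filter, Finset.mem_Ioo, ← adm_iff]
    exact ⟨fun h => ⟨⟨h.1, h.2.1⟩, h.2.2⟩, fun h => ⟨h.1.1, h.1.2, h.2⟩⟩
  have h2 : NumInadmissible m = {c : ℕ | 0 < c ∧ c < m ∧ ¬ IsAdmissible c m}.ncard := rfl
  rw [h2, h1, Set.ncard_coe_finset]

theorem numInadmissible_le (m : ℕ) : NumInadmissible m ≤ 1 + Nat.sqrt m + 2 * Nat.log 2 m := by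
  rw [numInadmissible_eq]
  exact inadm_card m

theorem numAllBad_le {K : Type} [Field K] [NumberField K] [IsCMField K] {m g : ℕ} (hK : finrank ℚ K = 2 * g) :
    NumAllBad K m ≤ Nat.card {r : (K →+* ℂ) → ℕ | r ∈ Pool.Agent.H68.U2.Sig K m ∧ ¬ Good K m r} := by
  have hfin : Finite (Pool.Agent.H68.U2.Sig K m) := by
    refine Nat.finite_of_card_ne_zero ?_
    rw [Pool.Agent.H68.U2.card_sig hK m]
    positivity
  have hf : Finite {r : (K →+* ℂ) → ℕ | r ∈ Pool.Agent.H68.U2.Sig K m ∧ ¬ Good K m r} :=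
    (Set.Finite.subset (Set.toFinite (Pool.Agent.H68.U2.Sig K m)) fun r hr => hr.1).to_subtype
  unfold NumAllBad
  refine Nat.card_le_card_of_injective
    (fun r : {r // r ∈ AllSignatures K m ∧ ¬ IsGood K m r} =>
      (⟨r.1, r.2.1, fun h => r.2.2 (isGood_of_good h)⟩ :
        {r : (K →+* ℂ) → ℕ | r ∈ Pool.Agent.H68.U2.Sig K m ∧ ¬ Good K m r}))
    fun a b h => Subtype.ext ?_
  exact congrArg (fun x : {r : (K →+* ℂ) → ℕ | r ∈ Pool.Agent.H68.U2.Sig K m ∧ ¬ Good K m r} => x.1) h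

/-- the simple form of the bound -/
private theorem simple_bound {g m B : ℕ} (hg : 1 ≤ g) (hm : 1 ≤ m) (hB : B ≤ 1 + Nat.sqrt m + 2 * Nat.log 2 m) :
    ((3 * g + B + (g - 1) * (m.divisors.card - 2) : ℕ) : ℝ) * Real.sqrt m ≤ 8 * g * (m + 1) := by
  have hm' : (1 : ℝ) ≤ m := by exact_mod_cast hm
  have hg' : (1 : ℝ) ≤ g := by exact_mod_cast hg
  have hs2 : Real.sqrt m ^ 2 = m := Real.sq_sqrt (by linarith)
  have hs1 : 1 ≤ Real.sqrt m := Real.one_le_sqrt.2 hm'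
  obtain ⟨s, hs⟩ : ∃ s, s = Real.sqrt m := ⟨_, rfl⟩
  rw [← hs] at hs2 hs1 ⊢
  have h1 : (Nat.sqrt m : ℝ) ≤ s := by
    rw [hs]
    exact Real.nat_sqrt_le_real_sqrt
  have h2 : (m.divisors.card : ℝ) ≤ 2 * s := by
    have h3 : (m.divisors.card : ℝ) ≤ 2 * Nat.sqrt m := by exact_mod_cast card_div m
    linarith
  have h3 : (Nat.log 2 m : ℝ) ≤ 5 / 4 * s := by
    obtain ⟨l, hl⟩ : ∃ l, l = Nat.log 2 m := ⟨_, rfl⟩
    have h4 : 2 ^ l ≤ m := by
      rw [hl]
      exact Nat.pow_log_le_self 2 (by omega)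
    have h5 : 16 * l ^ 2 ≤ 25 * 2 ^ l := by
      rcases Nat.lt_or_ge l 6 with h | h
      · interval_cases l <;> norm_num
      · clear hl h4
        induction l, h using Nat.le_induction with
        | base => norm_num
        | succ n hn ih =>
          rw [pow_succ 2 n]
          nlinarith
    have h6 : (16 : ℝ) * (l : ℝ) ^ 2 ≤ 25 * m := by
      have h7 : (16 : ℝ) * (l : ℝ) ^ 2 ≤ 25 * 2 ^ l := by exact_mod_cast h5
      have h8 : (2 : ℝ) ^ l ≤ m := by exact_mod_cast h4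
      linarith
    rw [← hl]
    refine abs_le_of_sq_le_sq' ?_ (by linarith) |>.2
    rw [mul_pow, hs2]
    linarith
  have hB' : (B : ℝ) ≤ 1 + s + 2 * (5 / 4 * s) := by
    have h4 : (B : ℝ) ≤ 1 + Nat.sqrt m + 2 * Nat.log 2 m := by exact_mod_cast hB
    linarith
  have hD : (((g - 1) * (m.divisors.card - 2) : ℕ) : ℝ) ≤ (g - 1) * (2 * s) := by
    have h4 : ((g - 1 : ℕ) : ℝ) = g - 1 := by
      rw [Nat.cast_sub hg, Nat.cast_one]
    have h5 : ((m.divisors.card - 2 : ℕ) : ℝ) ≤ m.divisors.card := by exact_mod_cast Nat.sub_le _ _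
    rw [Nat.cast_mul, h4]
    exact mul_le_mul_of_nonneg_left (h5.trans h2) (by linarith)
  have h4 : ((3 * g + B + (g - 1) * (m.divisors.card - 2) : ℕ) : ℝ) ≤ 3 * g + (1 + s + 2 * (5 / 4 * s)) + (g - 1) * (2 * s) := by
    push_cast at hD ⊢
    linarith
  have h5 : 3 * g + (1 + s + 2 * (5 / 4 * s)) + (g - 1) * (2 * s) ≤ 8 * g * s := by
    nlinarith
  calc ((3 * g + B + (g - 1) * (m.divisors.card - 2) : ℕ) : ℝ) * s ≤ (8 * g * s) * s :=
        mul_le_mul_of_nonneg_right (h4.trans h5) (by linarith)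
    _ = 8 * g * m := by rw [← hs2]; ring
    _ ≤ 8 * g * (m + 1) := by nlinarith

theorem all_final (K : Type) [Field K] [NumberField K] [IsCMField K] (g m : ℕ) (hK : finrank ℚ K = 2 * g)
    (hm : 1 ≤ m) :
    NumAll K m = (m + 1) ^ g ∧
    NumAllBad K m * (m + 1) ≤
      (3 * g + NumInadmissible m + (g - 1) * (m.divisors.card - 2)) * (m + 1) ^ g ∧
    NumInadmissible m ≤ 1 + Nat.sqrt m + 2 * Nat.log 2 m ∧
    (NumAllBad K m : ℝ) * Real.sqrt m ≤ 8 * g * (m + 1) ^ g := by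
  have hg : 1 ≤ g := by
    have : 0 < finrank ℚ K := finrank_pos
    omega
  have h1 : NumAllBad K m * (m + 1) ≤
      (3 * g + NumInadmissible m + (g - 1) * (m.divisors.card - 2)) * (m + 1) ^ g := by
    refine (Nat.mul_le_mul_right _ (numAllBad_le hK)).trans ?_
    rw [numInadmissible_eq]
    exact count2 K g m hK hm
  refine ⟨Pool.Agent.H68.U2.card_sig hK m, h1, numInadmissible_le m, ?_⟩
  have h2 := simple_bound hg hm (numInadmissible_le m)
  have h3 : (NumAllBad K m : ℝ) * (m + 1) ≤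
      ((3 * g + NumInadmissible m + (g - 1) * (m.divisors.card - 2) : ℕ) : ℝ) * (m + 1) ^ g := by exact_mod_cast h1
  have h4 : (0 : ℝ) < (m : ℝ) + 1 := by positivity
  have h5 : (NumAllBad K m : ℝ) * Real.sqrt m * (m + 1) ≤ 8 * g * (m + 1) ^ g * (m + 1) := by
    calc (NumAllBad K m : ℝ) * Real.sqrt m * (m + 1) = ((NumAllBad K m : ℝ) * (m + 1)) * Real.sqrt m := by ring
      _ ≤ (((3 * g + NumInadmissible m + (g - 1) * (m.divisors.card - 2) : ℕ) : ℝ) * (m + 1) ^ g) * Real.sqrt m :=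
          mul_le_mul_of_nonneg_right h3 (Real.sqrt_nonneg _)
      _ = (((3 * g + NumInadmissible m + (g - 1) * (m.divisors.card - 2) : ℕ) : ℝ) * Real.sqrt m) * (m + 1) ^ g := by
          ring
      _ ≤ (8 * g * (m + 1)) * (m + 1) ^ g := mul_le_mul_of_nonneg_right h2 (by positivity)
      _ = 8 * g * (m + 1) ^ g * (m + 1) := by ring
  exact le_of_mul_le_mul_right h5 h4

theorem sig_final : ∃ C : ℝ, ∀ ε : ℝ, 0 < ε → ∃ D : ℕ,
    ∀ (K : Type) [Field K] [NumberField K] [IsCMField K] (m c g N a b k : ℕ),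
      c ≤ m → 2 * c ≠ m → IsAdmissible c m →
      finrank ℚ K = 2 * g → D ≤ g → N = ClosDeg K → a = NumCM K {2} → b = NumCM K {4, 6} →
      k = NumNonab K →
      NumSignatures K m c = 2 ^ g ∧
      ((NumBadSignatures K m c : ℝ) ≤ 2 ^ g * ((if 4 ≤ N then (g : ℝ) ^ (-(1 / 50) : ℝ) else ε) +
        (if 8 ≤ N then 0 else C * (a / Real.sqrt g + b / g + (min b k : ℕ) * Real.log g / g)))) ∧
      (Odd g → (NumBadSignatures K m c : ℝ) ≤ 2 ^ g * (ε + C * b / g)) ∧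
      (Odd g → ¬ 3 ∣ g → (NumBadSignatures K m c : ℝ) ≤ 2 ^ g * ε) := by
  obtain ⟨C, hC⟩ := u_final2
  refine ⟨C, fun ε hε => ?_⟩
  obtain ⟨D, hD⟩ := hC ε hε
  refine ⟨D, ?_⟩
  intro K _ _ _ m c g N a b k hc h2 hadm hK hg hN ha hb hk
  exact hD K m c g N a b k hc (okPair_of hc hadm) h2 hK hg hN ha hb hk

end Pool.Agent.H9.GS
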