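import Pool.Agent.H29.TS.Full2
import Pool.Agent.H68.HT.Main
import Pool.Agent.H9.US.Good

/-!
# From the sharp key lemma to signatures (H9 GS)

`theoremT2`: Theorem T with the condition `GStar` in place of coprimality. `good_of2`: a signature with an admissible value is good if the weights
span and the embeddings are unlinked.
-/

set_option autoImplicit false

open NumberField Module

namespace Pool.Agent.H9.GS

open Pool.Agent.H68.HT Pool.Agent.H29.TS Pool.Agent.H9.US

section T

variable {V : Type} [AddCommGroup V] [Module ℚ V] [FiniteDimensional ℚ V] {F : Submodule ℂ (H V)}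
  {Q : H V →ₗ[ℂ] H V →ₗ[ℂ] ℂ} {E : Type} [CommRing E]

theorem divGen_of_full_spans {φ : E →+* EndA F} (h : Setup φ Q) (hf : ∀ s, Full h.compl φ s)
    (hL : ∀ R : (E →+* ℂ) → (E →+* ℂ) → Prop, IsLink φ R → ∀ s t, R s t → t = s ∨ t = cb s)
    (hs : Spans φ) : DivGen F := by
  have hlink : IsLink φ (Lnk h.compl φ) :=
    { equiv := lnk_equiv h.compl φ
      aut := fun ρ s t hst => lnk_cj h.compl φ ρ hst
      dim := fun s t hst hne => lnk_mult h.compl φ hst hne
      hodge := fun s t hst => lnk_hol h.compl φ hst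
      conj := fun s hst => lnk_cb h (hf s) hst }
  exact divGen_of_full h fun z hz => full_le h hf (hL _ hlink) hs hz

/-- Theorem T with the sharp numerical condition. -/
theorem theoremT2 [Algebra ℚ E] [FiniteDimensional ℚ E] [IsReduced E]
    (hF : IsAbelian F) (φ : E →+* EndA F) (hinj : Function.Injective φ)
    (hcom : ∀ f ∈ EndA F, (∀ a : E, f * (φ a : Module.End ℚ V) = (φ a : Module.End ℚ V) * f) →
      ∃ a : E, (φ a : Module.End ℚ V) = f)
    (hconj : ∀ (ρ : ℂ ≃+* ℂ) (s : E →+* ℂ), cb (cj ρ s) = cj ρ (cb s))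
    (hreal : ∀ s : E →+* ℂ, cb s ≠ s)
    (hG : ∀ s : E →+* ℂ, GStar φ s)
    (hL : ∀ R : (E →+* ℂ) → (E →+* ℂ) → Prop, IsLink φ R → ∀ s t, R s t → t = s ∨ t = cb s) :
    (Spans φ → DivGen F) ∧
      ((∀ f ∈ EndA F, ∃ a : E, (φ a : Module.End ℚ V) = f) → DivGen F → Spans φ) := by
  obtain ⟨Q, h⟩ := exists_setup hF φ hinj hcom hconj hreal
  exact ⟨fun hs => divGen_of_full_spans h (full_all2 h hG) hL hs, fun hEnd hd => spans_of_divGen h hEnd hd⟩

end T

/-- One value which is enough: coprime to `m`, or admissible and such that `m / gcd` divides no value strictly between `0` and `m`. -/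
def GVal {X : Type} (m : ℕ) (r : X → ℕ) (x : X) : Prop :=
  Nat.Coprime (r x) m ∨ (OkV (r x) m ∧ ∀ y, 0 < r y → r y < m → ¬ m / Nat.gcd (r x) m ∣ r y)

variable {K : Type} [Field K] [NumberField K] [IsCMField K]

theorem good_of2 {m : ℕ} (hm : 1 ≤ m) {r : (K →+* ℂ) → ℕ}
    (hr : ∀ x, r x + r (ComplexEmbedding.conjugate x) = m)
    (hG : ∃ x, GVal m r x)
    (hU : m = 1 ∨ Pool.Agent.H64.CO.Unl m r)
    (hS : Pool.Agent.H64.CO.Spans fun x => 2 * (r x : ℤ) - m) : Good K m r := by
  classical
  intro V _ _ _ F hF φ hmult hhol hcom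
  have hwt : ∀ s : K →+* ℂ, wt φ s = 2 * (r s : ℤ) - m := by
    intro s
    unfold wt
    rw [hmult, hhol]
  have hinj : Function.Injective φ := by
    obtain ⟨s⟩ : Nonempty (K →+* ℂ) := inferInstance
    have h1 : Nontrivial (EndA F) := by
      by_contra hcon
      rw [not_nontrivial_iff_subsingleton] at hcon
      have h2 : eig φ s = ⊥ := by
        rw [Submodule.eq_bot_iff]
        intro ω hω
        have h3 := hω 0
        have h4 := hω 1
        have h5 : φ 0 = φ 1 := Subsingleton.elim _ _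
        rw [h5, h4, map_one, map_zero, zero_smul, one_smul] at h3
        exact h3
      have h3 := hmult s
      unfold mult at h3
      rw [h2, finrank_bot] at h3
      omega
    exact φ.injective
  refine (theoremT2 hF φ hinj hcom cm_conj cm_real (fun s => ?_) (fun R hR s t hst => ?_)).1 ?_
  · obtain ⟨x, hx⟩ := hG
    obtain ⟨ρ, hρ⟩ := Pool.Agent.H52.MF.exists_aut_comp s x
    have h3 : cj ρ s = x := hρ
    refine ⟨ρ, ?_⟩
    rw [hmult, hhol, h3]
    rcases hx with hx | ⟨h1, h2⟩
    · exact Or.inl hx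
    · refine Or.inr ⟨h1, fun τ => ?_⟩
      rw [hhol]
      exact h2 (cj τ s)
  · rcases hU with h1 | h1
    · left
      by_contra hne
      have h2 := (hR.dim s t hst (fun h => hne h.symm)).2
      rw [hmult] at h2
      omega
    · by_contra hcon
      rw [not_or] at hcon
      obtain ⟨τ, h2, h3⟩ := h1 s t hcon.1 (by rw [← Pool.Agent.H9.US.cb_eq]; exact hcon.2)
      have h4 := hR.hodge _ _ (hR.aut τ s t hst)
      rw [hhol, hhol, hmult, hmult] at h4
      rcases h4 with h4 | ⟨h4, h5⟩
      · exact h3 h4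
      · unfold Pool.Agent.H64.CO.Indef at h2
        rw [← cj_eq, ← cj_eq] at h2
        rcases h2 with h2 | h2
        · rcases h4 with h4 | h4 <;> omega
        · rcases h5 with h5 | h5 <;> omega
  · intro g hg
    refine span_of_orth (fun s => cb s) _ ?_ ?_ g hg
    · rintro _ ⟨ρ, rfl⟩ s
      show (wt φ (cj ρ (cb s)) : ℚ) = - (wt φ (cj ρ s) : ℚ)
      rw [← cm_conj, hwt, hwt, Pool.Agent.H9.US.cb_eq]
      have h1 := hr (cj ρ s)
      have h2 : (r (ComplexEmbedding.conjugate (cj ρ s)) : ℚ) = m - r (cj ρ s) := by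
        rw [← h1]
        push_cast
        ring
      push_cast
      rw [h2]
      ring
    · intro g' hg' horth
      refine hS g' (fun x => ?_) (fun τ => ?_)
      · rw [← Pool.Agent.H9.US.cb_eq]
        exact hg' x
      · rw [← horth _ ⟨τ, rfl⟩]
        refine Finset.sum_congr rfl fun x _ => ?_
        show _ = g' x * (wt φ (cj τ x) : ℚ)
        rw [hwt]
        rfl

end Pool.Agent.H9.GS
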