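import Pool.Agent.H9.GS.Good

/-!
# Admissible pairs `(c, m)` (H9 GS)

`OkPair c m`: `c` is coprime to `m`, or `0 < c < m`, `m` does not divide `gcd (c, m) ^ 2` and `(c, m)` is not of binomial type.
-/

set_option autoImplicit false

open NumberField Module

namespace Pool.Agent.H9.GS

open Pool.Agent.H29.TS

/-- The pairs `(c, m)` for which one projection of rank `c` generates everything. -/
def OkPair (c m : ℕ) : Prop :=
  Nat.Coprime c m ∨ (0 < c ∧ c < m ∧ ¬ m ∣ Nat.gcd c m ^ 2 ∧ ¬ BinPair c m)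

theorem binPair_symm {c m : ℕ} (h : BinPair c m) : BinPair (m - c) m := by
  obtain ⟨n, k, h1, h2, h3, h4⟩ := h
  refine ⟨n, n + 1 - k, by omega, by omega, ?_, ?_⟩
  · have h5 : (n + 1).choose k = n.choose (k - 1) + n.choose k := by
      obtain ⟨i, rfl⟩ := Nat.exists_eq_add_of_le h1
      have h6 : 2 + i = (1 + i) + 1 := by omega
      rw [h6, Nat.choose_succ_succ]
      rfl
    have h6 : n.choose (k - 1) = n.choose (n + 1 - k) := by
      have h7 : n + 1 - k = n - (k - 1) := by omega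
      rw [h7, Nat.choose_symm (by omega)]
    rw [h4, h3, h5, h6, Nat.add_sub_cancel]
  · rw [h4, Nat.choose_symm (by omega)]

/-- the divisor `m / gcd (c, m)` -/
theorem div_dvd_iff {c m : ℕ} (hm : 0 < m) : m / Nat.gcd c m ∣ c ↔ m ∣ Nat.gcd c m ^ 2 := by
  have hg : 0 < Nat.gcd c m := Nat.gcd_pos_of_pos_right c hm
  have h1 : m / Nat.gcd c m * Nat.gcd c m = m := Nat.div_mul_cancel (Nat.gcd_dvd_right c m)
  have h2 : m / Nat.gcd c m ∣ m := Nat.div_dvd_of_dvd (Nat.gcd_dvd_right c m)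
  constructor
  · intro h
    have h3 : m / Nat.gcd c m ∣ Nat.gcd c m := Nat.dvd_gcd h h2
    have h4 := Nat.mul_dvd_mul_right h3 (Nat.gcd c m)
    rwa [h1, ← sq] at h4
  · intro h
    have h3 : m / Nat.gcd c m * Nat.gcd c m ∣ Nat.gcd c m * Nat.gcd c m := by rwa [h1, ← sq]
    exact (Nat.dvd_of_mul_dvd_mul_right hg h3).trans (Nat.gcd_dvd_left c m)

theorem gcd_sub {c m : ℕ} (hc : c ≤ m) : Nat.gcd (m - c) m = Nat.gcd c m := by
  obtain ⟨e, rfl⟩ := Nat.exists_eq_add_of_le hc
  rw [Nat.add_sub_cancel_left, Nat.gcd_add_self_right, Nat.gcd_self_add_right, Nat.gcd_comm]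

theorem gval_of_pair {X : Type} {c m : ℕ} (hc : c ≤ m) (h2 : 2 * c ≠ m) (hp : OkPair c m) {r : X → ℕ}
    (hr : ∀ x, r x = c ∨ r x = m - c) (x : X) : GVal m r x := by
  have hg : Nat.gcd (r x) m = Nat.gcd c m := by
    rcases hr x with h | h
    · rw [h]
    · rw [h, gcd_sub hc]
  rcases hp with hp | ⟨h3, h4, h5, h6⟩
  · left
    unfold Nat.Coprime at hp ⊢
    rw [hg, hp]
  · right
    refine ⟨⟨?_, ?_, ?_, ?_⟩, fun y _ _ => ?_⟩
    · rcases hr x with h | h <;> omega
    · rcases hr x with h | h <;> omega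
    · rcases hr x with h | h <;> omega
    · rcases hr x with h | h
      · rw [h]
        exact h6
      · rw [h]
        intro h7
        have h8 := binPair_symm h7
        rw [Nat.sub_sub_self hc] at h8
        exact h6 h8
    · rw [hg]
      intro h7
      refine h5 ((div_dvd_iff (by omega)).1 ?_)
      rcases hr y with h | h
      · rwa [h] at h7
      · rw [h] at h7
        have h8 : m / Nat.gcd c m ∣ m := Nat.div_dvd_of_dvd (Nat.gcd_dvd_right c m)
        have h9 := Nat.dvd_sub h8 h7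
        rwa [Nat.sub_sub_self hc] at h9

end Pool.Agent.H9.GS
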