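import Pool.Agent.H9.US.Stmt

/-!
# Signatures of all CM fields and all multiplicities (definitions for the statement)
-/

set_option autoImplicit false

open NumberField

namespace Pool.Agent.H9.GS

open Pool.Agent.H9.US

/-- `c` is admissible for `m`: it is coprime to `m`, or `2c ≠ m`, `m` does not divide `gcd (c, m) ^ 2` and `(c, m)` is not
`(binom n k, binom (n + 1) k)` with `2 ≤ k < n`. -/
def IsAdmissible (c m : ℕ) : Prop :=
  Nat.Coprime c m ∨ (2 * c ≠ m ∧ ¬ m ∣ Nat.gcd c m ^ 2 ∧
    ∀ n k : ℕ, 2 ≤ k → k < n → ¬ (c = n.choose k ∧ m = (n + 1).choose k))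

/-- The number of the integers `c`, `0 < c < m`, which are not admissible. -/
noncomputable def NumInadmissible (m : ℕ) : ℕ := Nat.card {c : ℕ // 0 < c ∧ c < m ∧ ¬ IsAdmissible c m}

/-- All signatures of multiplicity `m` of the CM field `K`: the maps `r` from the embeddings `s : K → ℂ` to `{0, .., m}`
with `r_s + r_s̄ = m`. -/
def AllSignatures (K : Type) [Field K] (m : ℕ) : Set ((K →+* ℂ) → ℕ) :=
  {r | ∀ s, r s + r (ComplexEmbedding.conjugate s) = m}

/-- The number of all signatures of multiplicity `m`. -/
noncomputable def NumAll (K : Type) [Field K] (m : ℕ) : ℕ := Nat.card (AllSignatures K m)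

/-- The number of those which are not good. -/
noncomputable def NumAllBad (K : Type) [Field K] (m : ℕ) : ℕ :=
  Nat.card {r // r ∈ AllSignatures K m ∧ ¬ IsGood K m r}

end Pool.Agent.H9.GS
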